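import Mathlib

set_option autoImplicit false

namespace Pool.Agent.Results.MP_b3a091_al.Factor

universe u

section
variable {G : Type u} [Group G]

def Direct (A B : Set G) : Prop :=
  ∀ a ∈ A, ∀ a' ∈ A, ∀ b ∈ B, ∀ b' ∈ B, a * b = a' * b' → a = a' ∧ b = b'

def Fac (G : Type u) [Group G] : Prop :=
  ∃ A B : Set G, A.Infinite ∧ B.Infinite ∧ (∀ g, ∃ a ∈ A, ∃ b ∈ B, a * b = g) ∧ Direct A B

def P (G : Type u) [Group G] : Prop :=
  ∀ (F : Finset G) (E : Finset (G × G)), (∀ p ∈ E, p.2 ≠ 1) →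
    ∃ x, x ∉ F ∧ ∀ p ∈ E, (p.1 * x) * (p.1 * x) ≠ p.2

theorem step1 (hP : P G) (A B : Finset G) (hD : Direct (A : Set G) B) (g : G)
    (hg : ∀ a ∈ A, ∀ b ∈ B, a * b ≠ g) :
    ∃ A' B' : Finset G, A ⊆ A' ∧ B ⊆ B' ∧ A.card < A'.card ∧ B.card < B'.card ∧
      Direct (A' : Set G) B' ∧ ∃ a ∈ A', ∃ b ∈ B', a * b = g := by
  classical
  obtain ⟨x, hxF, hxE⟩ := hP
    (A ∪ B.image (fun b => g * b⁻¹) ∪ (A ×ˢ B ×ˢ B).image (fun t => t.1 * t.2.1 * t.2.2⁻¹)
      ∪ (A ×ˢ A ×ˢ B).image (fun t => g * t.2.2⁻¹ * t.1⁻¹ * t.2.1))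
    ((A ×ˢ B).image (fun t => (t.2 * g⁻¹, t.2 * g⁻¹ * t.1))) (by
      intro p hp
      obtain ⟨t, ht, rfl⟩ := Finset.mem_image.mp hp
      obtain ⟨h1, h2⟩ := Finset.mem_product.mp ht
      intro h
      apply hg t.1 h1 t.2 h2
      have h' : t.2 * g⁻¹ * t.1 = 1 := h
      calc t.1 * t.2 = t.1 * (t.2 * g⁻¹ * t.1) * t.1⁻¹ * g := by group
        _ = g := by rw [h']; group)
  simp only [Finset.mem_union, not_or, Finset.mem_image, Finset.mem_product, not_exists,
    not_and] at hxF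
  obtain ⟨⟨⟨hx1, hx2⟩, hx3⟩, hx4⟩ := hxF
  have hx5 : x⁻¹ * g ∉ B := fun h => hx2 _ h (by group)
  have hx6 : ∀ a ∈ A, ∀ b ∈ B, x * b ≠ a * (x⁻¹ * g) := by
    intro a ha b hb h
    apply hxE (b * g⁻¹, b * g⁻¹ * a)
      (Finset.mem_image.mpr ⟨(a, b), Finset.mem_product.mpr ⟨ha, hb⟩, rfl⟩)
    calc b * g⁻¹ * x * (b * g⁻¹ * x) = b * g⁻¹ * (x * b) * g⁻¹ * x := by group
      _ = b * g⁻¹ * a := by rw [h]; group
  have hx7 : ∀ a ∈ A, ∀ b ∈ B, ∀ b' ∈ B, a * b ≠ x * b' := by
    intro a ha b hb b' hb' h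
    exact hx3 (a, b, b') ⟨ha, hb, hb'⟩ (by simp only; rw [h]; group)
  have hx8 : ∀ a ∈ A, ∀ a' ∈ A, ∀ b ∈ B, a * b ≠ a' * (x⁻¹ * g) := by
    intro a ha a' ha' b hb h
    refine hx4 (a, a', b) ⟨ha, ha', hb⟩ ?_
    calc g * b⁻¹ * a⁻¹ * a' = g * (a * b)⁻¹ * a' := by group
      _ = x := by rw [h]; group
  refine ⟨insert x A, insert (x⁻¹ * g) B, Finset.subset_insert _ _, Finset.subset_insert _ _,
    by rw [Finset.card_insert_of_notMem hx1]; omega,
    by rw [Finset.card_insert_of_notMem hx5]; omega, ?_,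
    x, Finset.mem_insert_self _ _, x⁻¹ * g, Finset.mem_insert_self _ _, by group⟩
  intro a ha a' ha' b hb b' hb' h
  simp only [Finset.coe_insert, Set.mem_insert_iff, Finset.mem_coe] at ha ha' hb hb'
  rcases ha with rfl | ha <;> rcases ha' with rfl | ha'
  · exact ⟨rfl, mul_left_cancel h⟩
  · rcases hb with rfl | hb <;> rcases hb' with rfl | hb'
    · exact ⟨mul_right_cancel h, rfl⟩
    · exact absurd (by rw [← h]; group) (hg a' ha' b' hb')
    · exact absurd h (hx6 a' ha' b hb)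
    · exact absurd h.symm (hx7 a' ha' b' hb' b hb)
  · rcases hb with rfl | hb <;> rcases hb' with rfl | hb'
    · exact ⟨mul_right_cancel h, rfl⟩
    · exact absurd h.symm (hx6 a ha b' hb')
    · exact absurd (by rw [h]; group) (hg a ha b hb)
    · exact absurd h (hx7 a ha b hb b' hb')
  · rcases hb with rfl | hb <;> rcases hb' with rfl | hb'
    · exact ⟨mul_right_cancel h, rfl⟩
    · exact absurd h.symm (hx8 a' ha' a ha b' hb')
    · exact absurd h (hx8 a ha a' ha' b hb)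
    · exact hD a ha a' ha' b hb b' hb' h

theorem step2 [Infinite G] (hP : P G) (A B : Finset G) (hD : Direct (A : Set G) B) (g : G) :
    ∃ A' B' : Finset G, A ⊆ A' ∧ B ⊆ B' ∧ A.card < A'.card ∧ B.card < B'.card ∧
      Direct (A' : Set G) B' ∧ ∃ a ∈ A', ∃ b ∈ B', a * b = g := by
  classical
  by_cases hg : ∀ a ∈ A, ∀ b ∈ B, a * b ≠ g
  · exact step1 hP A B hD g hg
  · push Not at hg
    obtain ⟨a, ha, b, hb, hab⟩ := hg
    obtain ⟨k, hk⟩ := Infinite.exists_notMem_finset ((A ×ˢ B).image (fun t => t.1 * t.2))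
    obtain ⟨A', B', h1, h2, h3, h4, h5, -⟩ := step1 hP A B hD k (fun a ha b hb h =>
      hk (Finset.mem_image.mpr ⟨(a, b), Finset.mem_product.mpr ⟨ha, hb⟩, h⟩))
    exact ⟨A', B', h1, h2, h3, h4, h5, a, h1 ha, b, h2 hb, hab⟩

theorem inf_of_card (S : ℕ → Finset G) (h : ∀ n, (S n).card < (S (n + 1)).card) :
    (⋃ n, (S n : Set G)).Infinite := by
  intro hf
  have h1 : ∀ n, n ≤ (S n).card := by
    intro n
    induction n with
    | zero => exact Nat.zero_le _
    | succ n ih => exact Nat.succ_le_of_lt (lt_of_le_of_lt ih (h n))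
  have h2 : ∀ n, (S n).card ≤ hf.toFinset.card := fun n =>
    Finset.card_le_card fun x hx => hf.mem_toFinset.mpr (Set.mem_iUnion.mpr ⟨n, hx⟩)
  have := (h1 (hf.toFinset.card + 1)).trans (h2 _)
  omega

theorem fac_of_P [Infinite G] [Countable G] (hP : P G) : Fac G := by
  obtain ⟨e, he⟩ := exists_surjective_nat G
  let St := {s : Finset G × Finset G // Direct (s.1 : Set G) s.2}
  have hs : ∀ (s : St) (g : G), ∃ s' : St, s.1.1 ⊆ s'.1.1 ∧ s.1.2 ⊆ s'.1.2 ∧
      s.1.1.card < s'.1.1.card ∧ s.1.2.card < s'.1.2.card ∧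
      ∃ a ∈ s'.1.1, ∃ b ∈ s'.1.2, a * b = g := by
    intro s g
    obtain ⟨A', B', h1, h2, h3, h4, h5, h6⟩ := step2 hP s.1.1 s.1.2 s.2 g
    exact ⟨⟨(A', B'), h5⟩, h1, h2, h3, h4, h6⟩
  choose nx h1 h2 h3 h4 h5 using hs
  let sq : ℕ → St := fun n => Nat.rec ⟨(∅, ∅), by intro a ha; simp at ha⟩ (fun k s => nx s (e k)) n
  have m1 : Monotone fun n => (sq n).1.1 := monotone_nat_of_le_succ fun n => h1 _ _
  have m2 : Monotone fun n => (sq n).1.2 := monotone_nat_of_le_succ fun n => h2 _ _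
  refine ⟨⋃ n, ((sq n).1.1 : Set G), ⋃ n, ((sq n).1.2 : Set G),
    inf_of_card _ fun n => h3 _ _, inf_of_card _ fun n => h4 _ _, ?_, ?_⟩
  · intro g
    obtain ⟨n, rfl⟩ := he g
    obtain ⟨a, ha, b, hb, hab⟩ := h5 (sq n) (e n)
    exact ⟨a, Set.mem_iUnion.mpr ⟨n + 1, ha⟩, b, Set.mem_iUnion.mpr ⟨n + 1, hb⟩, hab⟩
  · intro a ha a' ha' b hb b' hb' h
    obtain ⟨i, hi⟩ := Set.mem_iUnion.mp ha
    obtain ⟨j, hj⟩ := Set.mem_iUnion.mp ha'
    obtain ⟨k, hk⟩ := Set.mem_iUnion.mp hb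
    obtain ⟨l, hl⟩ := Set.mem_iUnion.mp hb'
    exact (sq (i + j + k + l)).2 a (m1 (by omega : i ≤ i + j + k + l) hi)
      a' (m1 (by omega : j ≤ i + j + k + l) hj) b (m2 (by omega : k ≤ i + j + k + l) hk)
      b' (m2 (by omega : l ≤ i + j + k + l) hl) h

theorem fac_of_subgroup (H : Subgroup G) (h : Fac H) : Fac G := by
  obtain ⟨A, B, hA, hB, hs, hD⟩ := h
  let s : G → G := fun g => (Quotient.mk (QuotientGroup.rightRel H) g).out
  have s1 : ∀ g, g * (s g)⁻¹ ∈ H := fun g =>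
    QuotientGroup.rightRel_apply.mp (Quotient.mk_out (s := QuotientGroup.rightRel H) g)
  have s2 : ∀ (k : H) (g : G), s (k * g) = s g := by
    intro k g
    simp only [s]
    congr 1
    apply Quotient.sound
    exact QuotientGroup.rightRel_apply.mpr (by simp)
  have s3 : ∀ g, s (s g) = s g := by
    intro g
    simp only [s, Quotient.out_eq]
  refine ⟨(fun a : H => (a : G)) '' A, {y | (⟨y * (s y)⁻¹, s1 y⟩ : H) ∈ B},
    hA.image Subtype.val_injective.injOn, ?_, ?_, ?_⟩
  · refine (hB.image (f := fun b : H => (b : G) * s 1) ?_).mono ?_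
    · intro b _ b' _ h
      exact Subtype.ext (mul_right_cancel h)
    · rintro _ ⟨b, hb, rfl⟩
      show (⟨_, _⟩ : H) ∈ B
      convert hb using 1
      apply Subtype.ext
      simp only [s2, s3]
      group
  · intro g
    obtain ⟨a, ha, b, hb, hab⟩ := hs ⟨g * (s g)⁻¹, s1 g⟩
    have hab' : (a : G) * b = g * (s g)⁻¹ := congrArg Subtype.val hab
    refine ⟨a, ⟨a, ha, rfl⟩, b * s g, ?_, by rw [← mul_assoc, hab']; group⟩
    show (⟨_, _⟩ : H) ∈ B
    convert hb using 1
    apply Subtype.ext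
    simp only [s2, s3]
    group
  · rintro _ ⟨a, ha, rfl⟩ _ ⟨a', ha', rfl⟩ y hy y' hy' h
    have e : s y = s y' := by rw [← s2 a y, ← s2 a' y']; exact congrArg s h
    obtain ⟨e1, e2⟩ := hD a ha a' ha' _ hy _ hy' (by
      apply Subtype.ext
      show (a : G) * (y * (s y)⁻¹) = a' * (y' * (s y')⁻¹)
      rw [← mul_assoc, ← mul_assoc, e]
      exact congrArg (· * (s y')⁻¹) h)
    subst e1
    exact ⟨rfl, mul_left_cancel h⟩

theorem fac_of_surj {K : Type u} [Group K] (φ : G →* K) (hφ : Function.Surjective φ) (h : Fac K) :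
    Fac G := by
  obtain ⟨A, B, hA, hB, hs, hD⟩ := h
  obtain ⟨σ, hσ⟩ := hφ.hasRightInverse
  refine ⟨φ ⁻¹' A, σ '' B, hA.preimage (by rw [hφ.range_eq]; exact Set.subset_univ _),
    hB.image hσ.injective.injOn, ?_, ?_⟩
  · intro g
    obtain ⟨a, ha, b, hb, hab⟩ := hs (φ g)
    refine ⟨g * (σ b)⁻¹, ?_, σ b, ⟨b, hb, rfl⟩, by group⟩
    show φ (g * (σ b)⁻¹) ∈ A
    rw [map_mul, map_inv, hσ b, ← hab]
    simpa using ha
  · rintro a ha a' ha' _ ⟨b, hb, rfl⟩ _ ⟨b', hb', rfl⟩ h
    have := congrArg φ h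
    rw [map_mul, map_mul, hσ b, hσ b'] at this
    obtain ⟨-, e2⟩ := hD _ ha _ ha' b hb b' hb' this
    subst e2
    exact ⟨mul_right_cancel h, rfl⟩

def cl (d : G) : Set G := Set.range fun g => g * d * g⁻¹

theorem fin_iff (d : G) : (cl d).Finite ↔ (Subgroup.centralizer {d}).FiniteIndex := by
  let f : G ⧸ Subgroup.centralizer {d} → G := fun q => q.out * d * q.out⁻¹
  have key : ∀ x y : G, x * d * x⁻¹ = y * d * y⁻¹ ↔ x⁻¹ * y ∈ Subgroup.centralizer {d} := by
    intro x y
    rw [Subgroup.mem_centralizer_singleton_iff]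
    constructor
    · intro h
      calc x⁻¹ * y * d = x⁻¹ * (y * d * y⁻¹) * y := by group
        _ = d * (x⁻¹ * y) := by rw [← h]; group
    · intro h
      calc x * d * x⁻¹ = x * (d * (x⁻¹ * y)) * y⁻¹ := by group
        _ = y * d * y⁻¹ := by rw [← h]; group
  have hf : Function.Injective f := by
    intro q q' h
    rw [← QuotientGroup.out_eq' q, ← QuotientGroup.out_eq' q', QuotientGroup.eq]
    exact (key _ _).mp h
  have hr : Set.range f = cl d := by
    apply Set.Subset.antisymm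
    · rintro _ ⟨q, rfl⟩; exact ⟨q.out, rfl⟩
    · rintro _ ⟨g, rfl⟩
      refine ⟨(g : G ⧸ Subgroup.centralizer {d}), (key _ _).mpr ?_⟩
      rw [← QuotientGroup.eq, QuotientGroup.out_eq']
  rw [← hr, Set.finite_range_iff hf, Subgroup.finiteIndex_iff_finite_quotient]

open scoped Pointwise in
theorem P_of_noFC [Infinite G] (h : ∀ d : G, d ≠ 1 → ¬ (cl d).Finite) : P G := by
  intro F E hE
  by_contra hc
  push Not at hc
  have hcov : ⋃ i ∈ F.disjSum E, (Sum.elim id (fun p : G × G => p.1⁻¹) i : G) •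
      ((Sum.elim (fun _ => ⊥) (fun p : G × G => Subgroup.centralizer {p.2}) i : Subgroup G) : Set G)
      = Set.univ := by
    rw [Set.eq_univ_iff_forall]
    intro x
    simp only [Set.mem_iUnion]
    by_cases hx : x ∈ F
    · exact ⟨Sum.inl x, by simpa using hx, by simp⟩
    · obtain ⟨p, hp, hpx⟩ := hc x hx
      refine ⟨Sum.inr p, by simpa using hp, ?_⟩
      rw [mem_leftCoset_iff]
      simp only [Sum.elim_inr, inv_inv, SetLike.mem_coe, Subgroup.mem_centralizer_singleton_iff]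
      rw [← hpx]; group
  obtain ⟨k, hk, hfi⟩ := Subgroup.exists_finiteIndex_of_leftCoset_cover hcov
  cases k with
  | inl x =>
    have h1 : (⊥ : Subgroup G).FiniteIndex := hfi
    have := (Subgroup.finite_iff_finite_and_finiteIndex (⊥ : Subgroup G)).mpr ⟨inferInstance, h1⟩
    exact not_finite G
  | inr p =>
    exact h p.2 (hE p (by simpa using hk)) ((fin_iff _).mpr hfi)

end

theorem fac_comm (H : Type u) [CommGroup H] [Infinite H] [Countable H] : Fac H := by
  classical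
  let f : H →* H := powMonoidHom 2
  by_cases hr : Finite f.range
  · have hk : Infinite f.ker := by
      rw [← not_finite_iff_infinite]
      intro hk
      have := f.finite_iff_finite_ker_range.mpr ⟨hk, hr⟩
      exact not_finite H
    refine fac_of_subgroup f.ker (fac_of_P ?_)
    intro F E hE
    obtain ⟨x, hx⟩ := Infinite.exists_notMem_finset F
    refine ⟨x, hx, fun p hp h => hE p hp ?_⟩
    rw [← h]
    apply Subtype.ext
    have : ((p.1 * x : f.ker) : H) ^ 2 = 1 := (p.1 * x).2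
    rw [sq] at this; exact this
  · refine fac_of_P ?_
    intro F E hE
    have hinf : (f.range : Set H).Infinite := fun h => hr h
    obtain ⟨_, ⟨x, rfl⟩, hy⟩ := hinf.exists_notMem_finset
      (F.image f ∪ E.image (fun p => p.2 * (p.1 * p.1)⁻¹))
    simp only [Finset.mem_union, not_or, Finset.mem_image, not_exists, not_and] at hy
    refine ⟨x, fun hx => hy.1 x hx rfl, fun p hp h => hy.2 p hp ?_⟩
    rw [← h]
    show _ = x ^ 2
    rw [sq, mul_mul_mul_comm, mul_comm, inv_mul_cancel_left]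

def FC (G : Type u) [Group G] : Subgroup G where
  carrier := {d | (cl d).Finite}
  one_mem' := (Set.finite_singleton 1).subset (by rintro _ ⟨g, rfl⟩; simp)
  mul_mem' := by
    intro a b ha hb
    refine (Set.Finite.image2 (· * ·) ha hb).subset ?_
    rintro _ ⟨g, rfl⟩
    exact ⟨_, ⟨g, rfl⟩, _, ⟨g, rfl⟩, by simp only; group⟩
  inv_mem' := by
    intro a ha
    refine (Set.Finite.image (·⁻¹) ha).subset ?_
    rintro _ ⟨g, rfl⟩
    exact ⟨_, ⟨g, rfl⟩, by simp only; group⟩

instance FC_normal (G : Type u) [Group G] : (FC G).Normal := ⟨by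
  intro n hn g
  refine Set.Finite.subset hn ?_
  rintro _ ⟨k, rfl⟩
  exact ⟨k * g, by simp only; group⟩⟩

open scoped IsMulCommutative in
theorem fac_all (G : Type u) [Group G] [Infinite G] [Countable G] : Fac G := by
  classical
  by_cases hF : Finite (FC G)
  · have hQ : Infinite (G ⧸ FC G) := by
      rw [← not_finite_iff_infinite, ← Subgroup.finiteIndex_iff_finite_quotient]
      intro h
      have := (Subgroup.finite_iff_finite_and_finiteIndex (FC G)).mpr ⟨hF, h⟩
      exact not_finite G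
    have hC : Countable (G ⧸ FC G) := (QuotientGroup.mk'_surjective (FC G)).countable
    refine fac_of_surj (QuotientGroup.mk' (FC G)) (QuotientGroup.mk'_surjective _)
      (fac_of_P (P_of_noFC ?_))
    intro d hd hfin
    obtain ⟨x, rfl⟩ := QuotientGroup.mk'_surjective (FC G) d
    apply hd
    rw [QuotientGroup.mk'_apply, QuotientGroup.eq_one_iff]
    have hF' : (FC G : Set G).Finite := hF
    refine (Set.Finite.image2 (fun (q : G ⧸ FC G) (n : G) => q.out * n) hfin hF').subset ?_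
    rintro _ ⟨g, rfl⟩
    refine ⟨((g * x * g⁻¹ : G) : G ⧸ FC G), ⟨(g : G ⧸ FC G), by simp⟩,
      (((g * x * g⁻¹ : G) : G ⧸ FC G).out)⁻¹ * (g * x * g⁻¹), ?_, by simp only; group⟩
    rw [SetLike.mem_coe, ← QuotientGroup.eq, QuotientGroup.out_eq']
  · obtain ⟨f, hf1, hf2⟩ := exists_seq_of_forall_finset_exists (fun x : G => x ∈ FC G)
      (fun x y => x ≠ y ∧ x * y = y * x) (by
        intro s hs
        have hfi : (⨅ i ∈ s, Subgroup.centralizer ({i} : Set G)).FiniteIndex :=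
          Subgroup.finiteIndex_iInf' _ fun i hi => (fin_iff i).mp (hs i hi)
        have hinf : Infinite ((⨅ i ∈ s, Subgroup.centralizer ({i} : Set G)).subgroupOf (FC G)) := by
          rw [← not_finite_iff_infinite]
          intro h
          exact hF ((Subgroup.finite_iff_finite_and_finiteIndex _).mpr ⟨h, inferInstance⟩)
        have hinj : Function.Injective
            (fun y : (⨅ i ∈ s, Subgroup.centralizer ({i} : Set G)).subgroupOf (FC G) =>
              ((y : FC G) : G)) := fun y y' h => Subtype.ext (Subtype.ext h)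
        obtain ⟨_, ⟨y, rfl⟩, hy⟩ := (Set.infinite_range_of_injective hinj).exists_notMem_finset s
        refine ⟨_, y.1.2, fun x hx => ⟨fun h => hy (by subst h; exact hx), ?_⟩⟩
        have := Subgroup.mem_subgroupOf.mp y.2
        simp only [Subgroup.mem_iInf, Subgroup.mem_centralizer_singleton_iff] at this
        exact (this x hx).symm)
    have hinj : Function.Injective f := by
      intro m n h
      rcases lt_trichotomy m n with h' | h' | h'
      · exact absurd h (hf2 m n h').1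
      · exact h'
      · exact absurd h.symm (hf2 n m h').1
    have hcomm : IsMulCommutative (Subgroup.closure (Set.range f)) :=
      Subgroup.isMulCommutative_closure (by
        rintro _ ⟨m, rfl⟩ _ ⟨n, rfl⟩
        rcases lt_trichotomy m n with h' | h' | h'
        · exact (hf2 m n h').2
        · rw [h']
        · exact (hf2 n m h').2.symm)
    have hinf : Infinite (Subgroup.closure (Set.range f)) :=
      ((Set.infinite_range_of_injective hinj).mono Subgroup.subset_closure).to_subtype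
    exact fac_of_subgroup _ (fac_comm (Subgroup.closure (Set.range f)))

theorem result (G : Type u) [Group G] [Countable G] [Infinite G] :
    ∃ A B : Set G, A.Infinite ∧ B.Infinite ∧
      ∀ g : G, ∃! p : G × G, p.1 ∈ A ∧ p.2 ∈ B ∧ p.1 * p.2 = g := by
  obtain ⟨A, B, hA, hB, hs, hD⟩ := fac_all G
  refine ⟨A, B, hA, hB, fun g => ?_⟩
  obtain ⟨a, ha, b, hb, hab⟩ := hs g
  refine ⟨(a, b), ⟨ha, hb, hab⟩, ?_⟩
  rintro ⟨a', b'⟩ ⟨h1, h2, h3⟩
  obtain ⟨e1, e2⟩ := hD a' h1 a ha b' h2 b hb (h3.trans hab.symm)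
  exact Prod.ext e1 e2

end Pool.Agent.Results.MP_b3a091_al.Factor
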